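import Mathlib
import Pool.Agent.Run7.h222.Stanley.Table

set_option autoImplicit false

/-!
# All characters of independent Stanley sequences
-/

namespace Run7.h222.Stanley

theorem third_spec {N : ℕ} (hN : 0 < N) (x y z : ℕ) :
    third N (x, y) = z % N ↔ (N : ℤ) ∣ (z : ℤ) + y - 2 * x := by
  unfold third
  have hy := Nat.mod_lt y hN
  have hdy := Nat.div_add_mod y N
  have h1 : (2 * x + (N - y % N)) % N = z % N ↔ (2 * x + (N - y % N)) ≡ z [MOD N] := Iff.rfl
  rw [h1, Nat.modEq_iff_dvd]
  have hsub : ((N - y % N : ℕ) : ℤ) = (N : ℤ) - ((y % N : ℕ) : ℤ) := by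
    rw [Nat.cast_sub hy.le]
  have hy' : (y : ℤ) = N * ((y / N : ℕ) : ℤ) + ((y % N : ℕ) : ℤ) := by exact_mod_cast hdy.symm
  have e : (z : ℤ) - ((2 * x + (N - y % N) : ℕ) : ℤ)
      = ((z : ℤ) + y - 2 * x) - N * (((y / N : ℕ) : ℤ) + 1) := by
    rw [Nat.cast_add, hsub, hy']
    push_cast
    ring
  rw [e]
  exact dvd_sub_left (Dvd.intro _ rfl)

theorem modSet_of_chk {N k : ℕ} {L : List ℕ} (h : chkList N k L = true) :
    0 < N ∧ ModSet N k L.toFinset := by
  unfold chkList at h
  simp only [Bool.and_eq_true, decide_eq_true_eq, beq_iff_eq, Nat.blt_eq] at h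
  obtain ⟨⟨⟨⟨hN, hlen⟩, hnd⟩, hfree⟩, hcov⟩ := h
  refine ⟨hN, ?_⟩
  have hinj : ∀ x ∈ L, ∀ y ∈ L, x % N = y % N → x = y :=
    fun x hx y hy hxy => List.inj_on_of_nodup_map hnd hx hy hxy
  have hnd' : L.Nodup := List.Nodup.of_map _ hnd
  refine ⟨?_, ?_, ?_⟩
  · rw [List.toFinset_card_of_nodup hnd', hlen]
  · intro x hx y hy z hz hd
    rw [List.mem_toFinset] at hx hy hz
    by_cases hxy : x = y
    · subst hxy
      refine ⟨rfl, hinj z hz x hx ?_⟩
      have : (N : ℤ) ∣ (z : ℤ) - x := by
        have e : (z : ℤ) - x = (x : ℤ) + z - 2 * x := by ring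
        rw [e]; exact hd
      exact ((Nat.modEq_iff_dvd).2 this).symm
    · exfalso
      have h1 : (orMask (third N) ((L.product L).filter fun p => p.1 != p.2)).testBit (z % N)
          = true := by
        rw [testBit_orMask]
        refine ⟨(y, x), ?_, ?_⟩
        · rw [List.mem_filter]
          refine ⟨List.mem_product.2 ⟨hy, hx⟩, ?_⟩
          simp only [bne_iff_ne, ne_eq]
          exact fun h => hxy h.symm
        · rw [third_spec hN]
          have e : (z : ℤ) + x - 2 * y = (x : ℤ) + z - 2 * y := by ring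
          rw [e]; exact hd
      have h2 : (orMask (fun a => a % N) L).testBit (z % N) = true := by
        rw [testBit_orMask]
        exact ⟨z, hz, rfl⟩
      have h3 := congrArg (fun n => Nat.testBit n (z % N)) hfree
      simp only [Nat.testBit_and, h1, h2, Nat.zero_testBit] at h3
      exact absurd h3 (by decide)
  · intro r
    have hNz : (N : ℤ) ≠ 0 := by exact_mod_cast hN.ne'
    obtain ⟨s, hs⟩ := Int.eq_ofNat_of_zero_le (Int.emod_nonneg r hNz)
    have hslt : s < N := by
      have := Int.emod_lt_of_pos r (by exact_mod_cast hN : (0 : ℤ) < N)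
      omega
    have hrs : (N : ℤ) ∣ (s : ℤ) - r := by
      have h := Int.emod_add_mul_ediv r N
      refine ⟨-(r / N), ?_⟩
      have hs' : r % (N : ℤ) = (s : ℤ) := hs
      rw [hs'] at h
      linear_combination h
    have h1 := congrArg (fun n => Nat.testBit n s) hcov
    simp only [Nat.testBit_or, Nat.testBit_two_pow_sub_one, decide_eq_true hslt,
      Bool.or_eq_true, testBit_orMask] at h1
    rcases h1 with ⟨⟨z, y⟩, hp, hp2⟩ | ⟨a, ha, ha2⟩
    · right
      rw [List.mem_filter] at hp
      obtain ⟨hp1, hlt⟩ := hp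
      rw [Nat.blt_eq] at hlt
      obtain ⟨hz, hy⟩ := List.mem_product.1 hp1
      refine ⟨y, List.mem_toFinset.2 hy, z, List.mem_toFinset.2 hz, hlt, ?_⟩
      rw [← Nat.mod_eq_of_lt hslt, third_spec hN] at hp2
      have e : 2 * (z : ℤ) - y - r = ((s : ℤ) - r) - ((s : ℤ) + y - 2 * z) := by ring
      rw [e]
      exact dvd_sub hrs hp2
    · left
      refine ⟨a, List.mem_toFinset.2 ha, ?_⟩
      have h2 : a ≡ s [MOD N] := by
        show a % N = s % N
        rw [ha2, Nat.mod_eq_of_lt hslt]
      have h3 := (Nat.modEq_iff_dvd).1 h2.symm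
      have e : (a : ℤ) - r = ((a : ℤ) - s) + ((s : ℤ) - r) := by ring
      rw [e]
      exact dvd_add h3 hrs

/-- Raising the top element of an entry. -/
theorem entry_raise {N k : ℕ} {e : List ℕ × ℕ} (h : chkEntry N k e = true) {M : ℕ}
    (hM : e.2 ≤ M) (hmod : M % N = e.2 % N) :
    0 < N ∧ ModSet N k (insert M e.1.toFinset) ∧ 0 ∈ insert M e.1.toFinset ∧
      M ∈ insert M e.1.toFinset ∧ (∀ a ∈ insert M e.1.toFinset, a ≤ M) := by
  unfold chkEntry at h
  simp only [Bool.and_eq_true, List.any_eq_true, List.all_eq_true, beq_iff_eq, Nat.blt_eq] at h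
  obtain ⟨⟨h1, ⟨z, hz, hz0⟩⟩, hlt⟩ := h
  obtain ⟨hN, hA⟩ := modSet_of_chk h1
  subst hz0
  have himg : (e.2 :: e.1).toFinset.image (fun x => if x = e.2 then M else x)
      = insert M e.1.toFinset := by
    rw [List.toFinset_cons, Finset.image_insert, if_pos rfl]
    congr 1
    ext x
    rw [Finset.mem_image]
    constructor
    · rintro ⟨y, hy, rfl⟩
      rw [List.mem_toFinset] at hy
      rw [if_neg (hlt y hy).ne]
      exact List.mem_toFinset.2 hy
    · intro hx
      rw [List.mem_toFinset] at hx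
      exact ⟨x, List.mem_toFinset.2 hx, if_neg (hlt x hx).ne⟩
  refine ⟨hN, ?_, ?_, Finset.mem_insert_self _ _, ?_⟩
  · rw [← himg]
    apply hA.map
    · intro x hx y hy hxy
      rw [List.toFinset_cons, Finset.mem_insert, List.mem_toFinset] at hx hy
      rcases hy with rfl | hy
      · rw [if_pos rfl, if_neg hxy.ne]
        omega
      · have h2 := hlt y hy
        rw [if_neg h2.ne, if_neg (hxy.trans h2).ne]
        exact hxy
    · intro x _
      by_cases hx : x = e.2
      · rw [if_pos hx, hx]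
        exact (Nat.modEq_iff_dvd).1 hmod.symm
      · rw [if_neg hx, sub_self]
        exact dvd_zero _
  · exact Finset.mem_insert_of_mem (List.mem_toFinset.2 hz)
  · intro a ha
    rw [Finset.mem_insert, List.mem_toFinset] at ha
    rcases ha with rfl | ha
    · exact le_rfl
    · exact ((hlt a ha).le).trans hM

/-- `r` is the character of a modular set with a lower companion. -/
def Good (r : ℕ) : Prop :=
  ∃ (N k : ℕ) (A B : Finset ℕ) (m : ℕ), 0 < N ∧ ModSet N k A ∧ ModSet N k B ∧ 0 ∈ A ∧ m ∈ A ∧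
    (∀ a ∈ A, a ≤ m) ∧ (∀ b ∈ B, b < m) ∧ 2 * m + 1 = N + r

theorem Good.hasCharacter {r : ℕ} (h : Good r) : HasCharacter (r : ℤ) := by
  obtain ⟨N, k, A, B, m, hN, hA, -, h0, hm, hmax, -, hr⟩ := h
  exact Run7.h222.Stanley.hasCharacter hN hA h0 hm hmax (by exact_mod_cast hr)

theorem good_of_entry {N k : ℕ} {e : List ℕ × ℕ} (he : chkEntry N k e = true)
    {B : List ℕ} (hB : chkList N k B = true) {M : ℕ} (hBM : ∀ b ∈ B, b < M)
    (hM : e.2 ≤ M) (hmod : M % N = e.2 % N) {r : ℕ} (hr : 2 * M + 1 = N + r) : Good r := by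
  obtain ⟨hN, hA, h0, hm, hmax⟩ := entry_raise he hM hmod
  exact ⟨N, k, _, B.toFinset, M, hN, hA, (modSet_of_chk hB).2, h0, hm, hmax,
    fun b hb => hBM b (List.mem_toFinset.1 hb), hr⟩

/-- The special modular set modulo `85`: it covers without using its element `0`. -/
def P85 : List ℕ := [0, 8, 14, 22, 26, 34, 37, 45, 49, 50, 57, 58, 62, 70, 73, 81]

theorem chkP85 : chkList 85 4 P85 = true := by decide +kernel

theorem P85_lt : ∀ a ∈ P85, a < 85 := by decide

theorem P85_special : ((orMask (third 85) ((P85.product P85).filter fun p =>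
    Nat.blt p.2 p.1 && Nat.blt 0 p.2)) ||| orMask (fun a => a % 85) P85) = 2 ^ 85 - 1 := by
  decide +kernel

theorem P85_cover (r : ℤ) : (∃ a ∈ P85.toFinset, ((85 : ℕ) : ℤ) ∣ (a : ℤ) - r) ∨
    ∃ y ∈ P85.toFinset, ∃ z ∈ P85.toFinset, y < z ∧ 0 < y ∧
      ((85 : ℕ) : ℤ) ∣ 2 * (z : ℤ) - y - r := by
  obtain ⟨s, hs⟩ := Int.eq_ofNat_of_zero_le (Int.emod_nonneg r (by norm_num : (85 : ℤ) ≠ 0))
  have hslt : s < 85 := by
    have := Int.emod_lt_of_pos r (by norm_num : (0 : ℤ) < 85)
    omega
  have hrs : ((85 : ℕ) : ℤ) ∣ (s : ℤ) - r := by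
    have h := Int.emod_add_mul_ediv r 85
    refine ⟨-(r / 85), ?_⟩
    have hs' : r % (85 : ℤ) = (s : ℤ) := hs
    rw [hs'] at h
    push_cast
    linear_combination h
  have h1 := congrArg (fun n => Nat.testBit n s) P85_special
  simp only [Nat.testBit_or, Nat.testBit_two_pow_sub_one, decide_eq_true hslt,
    Bool.or_eq_true, testBit_orMask] at h1
  rcases h1 with ⟨⟨z, y⟩, hp, hp2⟩ | ⟨a, ha, ha2⟩
  · right
    rw [List.mem_filter] at hp
    obtain ⟨hp1, hlt⟩ := hp
    rw [Bool.and_eq_true, Nat.blt_eq, Nat.blt_eq] at hlt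
    obtain ⟨hz, hy⟩ := List.mem_product.1 hp1
    refine ⟨y, List.mem_toFinset.2 hy, z, List.mem_toFinset.2 hz, hlt.1, hlt.2, ?_⟩
    rw [← Nat.mod_eq_of_lt hslt, third_spec (by norm_num)] at hp2
    have e : 2 * (z : ℤ) - y - r = ((s : ℤ) - r) - ((s : ℤ) + y - 2 * z) := by ring
    rw [e]
    exact dvd_sub hrs hp2
  · left
    refine ⟨a, List.mem_toFinset.2 ha, ?_⟩
    have h2 : a ≡ s [MOD 85] := by
      show a % 85 = s % 85
      rw [ha2, Nat.mod_eq_of_lt hslt]
    have h3 := (Nat.modEq_iff_dvd).1 h2.symm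
    have e : (a : ℤ) - r = ((a : ℤ) - s) + ((s : ℤ) - r) := by ring
    rw [e]
    exact dvd_add h3 hrs

/-- The recursion: from the character `r` to the character `1 + 85 (r - 1)`. -/
theorem Good.lift {r r' : ℕ} (h : Good r) (hr' : r' + 84 = 85 * r) : Good r' := by
  obtain ⟨N, k, A, B, m, hN, hA, hB, h0, hm, hmax, hBm, hr⟩ := h
  have hP := (modSet_of_chk chkP85).2
  have hPlt : ∀ a ∈ P85.toFinset, a < 85 := fun a ha => P85_lt a (List.mem_toFinset.1 ha)
  have hP0 : 0 ∈ P85.toFinset := by decide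
  let F : ℕ → Finset ℕ := fun a => if a = 0 then A else B
  have hA' : ModSet (85 * N) (4 + k) (sigmaSet 85 P85.toFinset F) := by
    refine hP.sigma (by norm_num) F ?_ ?_
    · intro a _
      by_cases ha : a = 0
      · simp only [F, if_pos ha]; exact hA
      · simp only [F, if_neg ha]; exact hB
    · intro s
      rcases P85_cover s with h1 | ⟨y, hy, z, hz, hyz, hy0, hd⟩
      · exact Or.inl h1
      · refine Or.inr ⟨y, hy, z, hz, hyz, ?_, hd⟩
        simp only [F, if_neg hy0.ne', if_neg (hy0.trans hyz).ne']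
  have hB' : ModSet (85 * N) (4 + k) (sigmaSet 85 P85.toFinset (fun _ => B)) :=
    hP.prod (by norm_num) hB
  refine ⟨85 * N, 4 + k, _, _, 85 * m, by omega, hA', hB', ?_, ?_, ?_, ?_, ?_⟩
  · exact mem_sigmaSet.2 ⟨0, hP0, 0, by simp only [F, if_true]; exact h0, by simp⟩
  · exact mem_sigmaSet.2 ⟨0, hP0, m, by simp only [F, if_true]; exact hm, by simp⟩
  · intro x hx
    obtain ⟨a, ha, b, hb, rfl⟩ := mem_sigmaSet.1 hx
    by_cases ha0 : a = 0
    · simp only [F, if_pos ha0] at hb
      have := hmax b hb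
      omega
    · simp only [F, if_neg ha0] at hb
      have h1 := hBm b hb
      have h2 := hPlt a ha
      omega
  · intro x hx
    obtain ⟨a, ha, b, hb, rfl⟩ := mem_sigmaSet.1 hx
    have h1 := hBm b hb
    have h2 := hPlt a ha
    omega
  · omega

/-- the entry modulo ten with character seven -/
theorem chk10 : chkList 10 2 [0, 1, 7, 8] = true := by decide +kernel

theorem good_table {N k : ℕ} {tab : List (List ℕ × ℕ)} (ht : (tab.all (chkEntry N k)) = true)
    {B : List ℕ} (hB : chkList N k B = true) {M M' : ℕ}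
    (hfind : ∃ e ∈ tab, e.2 % N = M' % N ∧ e.2 ≤ M') (hMM : M' ≤ M) (hmod : M % N = M' % N)
    (hBM : ∀ b ∈ B, b < M) {r : ℕ} (hr : 2 * M + 1 = N + r) : Good r := by
  obtain ⟨e, he, h1, h2⟩ := hfind
  rw [List.all_eq_true] at ht
  exact good_of_entry (ht e he) hB hBM (h2.trans hMM) (by rw [hmod, h1]) hr

theorem P85_all_lt : ∀ b ∈ P85, b < 82 := by decide

/-- characters `r` with `r ≡ 10 (mod 18)`, `r ≥ 100`, `85 ∤ r - 1` -/
theorem good_even85 (i : ℕ) (h : (92 + 9 * i) % 85 ≠ 0) : Good (100 + 18 * i) := by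
  have hf := find85a (i % 85) (Nat.mod_lt _ (by norm_num)) (by omega)
  refine good_table chk85 chkP85 hf (M := 92 + 9 * i) (by omega) (by omega) ?_ (by omega)
  intro b hb
  have := P85_all_lt b hb
  omega

theorem good_even : ∀ r : ℕ, 2 ≤ r → r % 2 = 0 → Good r := by
  intro r
  induction r using Nat.strong_induction_on with
  | _ r ih =>
    intro h2 heven
    rcases (show r % 6 = 0 ∨ r % 6 = 2 ∨ r % 18 = 16 ∨ r % 18 = 4 ∨ r % 18 = 10 by omega)
      with h | h | h | h | h
    · -- `{0, w}` with `w ≡ 1 (mod 3)`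
      exact good_of_entry (N := 3) (k := 1) (e := ([0], 1)) (by decide +kernel)
        (B := [0, 1]) (by decide +kernel) (M := (r + 2) / 2)
        (by intro b hb; simp at hb; omega) (by show 1 ≤ _; omega)
        (by show _ = 1 % 3; omega) (by omega)
    · exact good_of_entry (N := 3) (k := 1) (e := ([0], 2)) (by decide +kernel)
        (B := [0, 1]) (by decide +kernel) (M := (r + 2) / 2)
        (by intro b hb; simp at hb; omega) (by show 2 ≤ _; omega)
        (by show _ = 2 % 3; omega) (by omega)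
    · exact good_of_entry (N := 9) (k := 2) (e := ([0, 1, 4], 12)) (by decide +kernel)
        (B := [0, 1, 3, 4]) (by decide +kernel) (M := (r + 8) / 2)
        (by intro b hb; simp at hb; omega) (by show 12 ≤ _; omega)
        (by show _ = 12 % 9; omega) (by omega)
    · exact good_of_entry (N := 9) (k := 2) (e := ([0, 2, 5], 6)) (by decide +kernel)
        (B := [0, 1, 3, 4]) (by decide +kernel) (M := (r + 8) / 2)
        (by intro b hb; simp at hb; omega) (by show 6 ≤ _; omega)
        (by show _ = 6 % 9; omega) (by omega)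
    · rcases (show r = 10 ∨ r = 28 ∨ r = 46 ∨ r = 64 ∨ r = 82 ∨ 100 ≤ r by omega)
        with rfl | rfl | rfl | rfl | rfl | hbig
      · exact good_of_entry (N := 27) (k := 3) (e := ([0, 1, 6, 7, 10, 15, 16], 18))
          (by decide +kernel) (B := [0, 1, 3, 4, 9, 10, 12, 13]) (by decide +kernel) (M := 18)
          (by decide) le_rfl rfl (by norm_num)
      · exact good_of_entry (N := 31) (k := 3) (e := ([0, 3, 4, 7, 22, 25, 26], 29))
          (by decide +kernel) (B := [0, 2, 6, 8, 13, 15, 19, 21]) (by decide +kernel) (M := 29)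
          (by decide) le_rfl rfl (by norm_num)
      · exact good_of_entry (N := 27) (k := 3) (e := ([0, 3, 8, 11, 12, 26, 29], 36))
          (by decide +kernel) (B := [0, 1, 3, 4, 9, 10, 12, 13]) (by decide +kernel) (M := 36)
          (by decide) le_rfl rfl (by norm_num)
      · exact good_of_entry (N := 27) (k := 3) (e := ([0, 13, 19, 24, 31, 33, 37], 45))
          (by decide +kernel) (B := [0, 1, 3, 4, 9, 10, 12, 13]) (by decide +kernel) (M := 45)
          (by decide) le_rfl rfl (by norm_num)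
      · exact good_of_entry (N := 31) (k := 3) (e := ([0, 12, 16, 21, 35, 40, 44], 56))
          (by decide +kernel) (B := [0, 2, 6, 8, 13, 15, 19, 21]) (by decide +kernel) (M := 56)
          (by decide) le_rfl rfl (by norm_num)
      · obtain ⟨i, rfl⟩ : ∃ i, r = 100 + 18 * i := ⟨(r - 100) / 18, by omega⟩
        by_cases h85 : (92 + 9 * i) % 85 = 0
        · -- recursion
          obtain ⟨q, hq⟩ : ∃ q, 99 + 18 * i = 85 * q := ⟨(99 + 18 * i) / 85, by omega⟩
          refine (ih (q + 1) (by omega) (by omega) (by omega)).lift ?_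
          omega
        · exact good_even85 i h85

/-- characters of products with the modular set `{0, 1, 7, 8}` modulo ten, low factor modulo
`85` -/
theorem good_odd85 (j : ℕ) (h : (165 + 210 * j) % 85 ≠ 0) : Good (841 + 420 * j) := by
  obtain ⟨e, he, h1, h2⟩ := find85b (j % 17) (Nat.mod_lt _ (by norm_num)) (by omega)
  have ht := chk85
  rw [List.all_eq_true] at ht
  obtain ⟨-, hA, h0, hm, hmax⟩ := entry_raise (ht e he) (M := 165 + 210 * j) (by omega)
    (by omega)
  have h10 := (modSet_of_chk chk10).2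
  have hP := (modSet_of_chk chkP85).2
  refine ⟨85 * 10, 4 + 2, _, _, (165 + 210 * j) + 85 * 8, by norm_num,
    hA.prod (by norm_num) h10, hP.prod (by norm_num) h10, ?_, ?_, ?_, ?_, by omega⟩
  · exact mem_sigmaSet.2 ⟨0, h0, 0, by decide, by simp⟩
  · exact mem_sigmaSet.2 ⟨_, hm, 8, by decide, rfl⟩
  · intro x hx
    obtain ⟨a, ha, b, hb, rfl⟩ := mem_sigmaSet.1 hx
    have h3 := hmax a ha
    simp at hb
    omega
  · intro x hx
    obtain ⟨a, ha, b, hb, rfl⟩ := mem_sigmaSet.1 hx
    have h3 := P85_all_lt a (List.mem_toFinset.1 ha)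
    simp at hb
    omega

theorem good_odd : ∀ r : ℕ, 13 ≤ r → r % 2 = 1 → r ≠ 15 → Good r := by
  intro r
  induction r using Nat.strong_induction_on with
  | _ r ih =>
    intro h13 hodd h15
    by_cases h25 : r = 25
    · subst h25
      exact good_of_entry (N := 32) (k := 3) (e := ([0, 2, 3, 5, 23, 25, 26], 28))
        (by decide +kernel) (B := [0, 2, 7, 9, 13, 15, 20, 22]) (by decide +kernel) (M := 28)
        (by decide) le_rfl rfl (by norm_num)
    by_cases h37 : r = 37
    · subst h37
      exact good_of_entry (N := 28) (k := 3) (e := ([0, 1, 3, 19, 20, 22, 23], 32))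
        (by decide +kernel) (B := [0, 4, 5, 9, 15, 17, 20, 22]) (by decide +kernel) (M := 32)
        (by decide) le_rfl rfl (by norm_num)
    by_cases h421 : r = 421
    · subst h421
      exact good_of_entry (N := 32) (k := 3) (e := ([0, 5, 6, 11, 23, 29, 60], 66))
        (by decide +kernel) (B := [0, 2, 7, 9, 13, 15, 20, 22]) (by decide +kernel) (M := 226)
        (by decide) (by norm_num) rfl (by norm_num)
    by_cases h30 : r % 30 = 1
    · by_cases h28 : r % 28 = 1
      · -- `r ≡ 1 (mod 420)`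
        obtain ⟨j, rfl⟩ : ∃ j, r = 841 + 420 * j := ⟨(r - 841) / 420, by omega⟩
        by_cases h85 : (165 + 210 * j) % 85 = 0
        · obtain ⟨q, hq⟩ : ∃ q, 840 + 420 * j = 85 * q := ⟨(840 + 420 * j) / 85, by omega⟩
          refine (ih (q + 1) (by omega) (by omega) (by omega) (by omega)).lift ?_
          omega
        · exact good_odd85 j h85
      · -- modulus 28
        have hB : chkList 28 3 [0, 4, 5, 9, 15, 17, 20, 22] = true := by decide +kernel
        rcases Nat.lt_or_ge ((r + 27) / 2) 97 with hlt | hge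
        · exact good_table chk28 hB (find28 ((r + 27) / 2) hlt (by omega)) le_rfl rfl
            (by intro b hb; simp at hb; omega) (by omega)
        · exact good_table chk28 hB (find28 (69 + ((r + 27) / 2 - 69) % 28) (by omega)
            (by omega)) (M := (r + 27) / 2) (by omega) (by omega)
            (by intro b hb; simp at hb; omega) (by omega)
    · -- modulus 30
      have hB : chkList 30 3 [0, 1, 7, 8, 10, 11, 17, 18] = true := by decide +kernel
      rcases Nat.lt_or_ge ((r + 29) / 2) 94 with hlt | hge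
      · exact good_table chk30 hB (find30 ((r + 29) / 2) hlt (by omega)) le_rfl rfl
          (by intro b hb; simp at hb; omega) (by omega)
      · exact good_table chk30 hB (find30 (64 + ((r + 29) / 2 - 64) % 30) (by omega)
          (by omega)) (M := (r + 29) / 2) (by omega) (by omega)
          (by intro b hb; simp at hb; omega) (by omega)

/-- **Every nonnegative integer outside `{1, 3, 5, 9, 11, 15}` is the character of an independent
Stanley sequence.** -/
theorem main (r : ℤ) (h0 : 0 ≤ r) (hr : r ∉ ({1, 3, 5, 9, 11, 15} : Finset ℤ)) :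
    HasCharacter r := by
  obtain ⟨n, rfl⟩ := Int.eq_ofNat_of_zero_le h0
  simp only [Finset.mem_insert, Finset.mem_singleton, not_or] at hr
  rcases Nat.even_or_odd' n with ⟨c, hc | hc⟩
  · rcases Nat.eq_zero_or_pos c with hc0 | hc0
    · -- the character zero
      subst hc0
      have hn : n = 0 := by omega
      subst hn
      exact hasCharacter (N := 3) (by norm_num) modSet_three (by simp) (m := 1) (by simp)
        (by simp) (by norm_num)
    · exact (good_even n (by omega) (by omega)).hasCharacter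
  · by_cases h7 : n = 7
    · subst h7
      exact hasCharacter (N := 10) (by norm_num) (modSet_of_chk chk10).2 (by decide) (m := 8)
        (by decide) (by decide) (by norm_num)
    · exact (good_odd n (by omega) (by omega) (by omega)).hasCharacter

end Run7.h222.Stanley
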