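import Mathlib

set_option autoImplicit false

/-!
# Modular sets for Stanley sequences

`ModSet N k A`: the finite set `A` of natural numbers has `2 ^ k` elements, is free of three-term
progressions modulo `N`, and every residue modulo `N` is a residue of `A` or completes a
progression `y < z` of `A`.
-/

namespace Run7.h222.Stanley

/-- Modular sets. -/
structure ModSet (N k : ℕ) (A : Finset ℕ) : Prop where
  card : A.card = 2 ^ k
  free : ∀ x ∈ A, ∀ y ∈ A, ∀ z ∈ A, (N : ℤ) ∣ (x : ℤ) + z - 2 * y → x = y ∧ z = y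
  cover : ∀ r : ℤ, (∃ a ∈ A, (N : ℤ) ∣ (a : ℤ) - r) ∨
    ∃ y ∈ A, ∃ z ∈ A, y < z ∧ (N : ℤ) ∣ 2 * (z : ℤ) - y - r

theorem ModSet.inj {N k : ℕ} {A : Finset ℕ} (h : ModSet N k A) {x y : ℕ} (hx : x ∈ A)
    (hy : y ∈ A) (hd : (N : ℤ) ∣ (x : ℤ) - y) : x = y := by
  have := h.free x hx y hy x hx (by
    have : (x : ℤ) + x - 2 * y = 2 * ((x : ℤ) - y) := by ring
    rw [this]
    exact Dvd.dvd.mul_left hd 2)
  exact this.1

/-- Order-preserving congruent replacement of the elements. -/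
theorem ModSet.map {N k : ℕ} {A : Finset ℕ} (h : ModSet N k A) (f : ℕ → ℕ)
    (hmono : ∀ x ∈ A, ∀ y ∈ A, x < y → f x < f y)
    (hcong : ∀ x ∈ A, (N : ℤ) ∣ (f x : ℤ) - x) : ModSet N k (A.image f) where
  card := by
    rw [Finset.card_image_of_injOn, h.card]
    intro x hx y hy hxy
    rcases lt_trichotomy x y with hlt | heq | hgt
    · exact absurd hxy (hmono x hx y hy hlt).ne
    · exact heq
    · exact absurd hxy.symm (hmono y hy x hx hgt).ne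
  free := by
    intro x' hx' y' hy' z' hz' hd
    obtain ⟨x, hx, rfl⟩ := Finset.mem_image.1 hx'
    obtain ⟨y, hy, rfl⟩ := Finset.mem_image.1 hy'
    obtain ⟨z, hz, rfl⟩ := Finset.mem_image.1 hz'
    have h1 : (N : ℤ) ∣ (x : ℤ) + z - 2 * y := by
      have e : (x : ℤ) + z - 2 * y = ((f x : ℤ) + f z - 2 * f y) - ((f x : ℤ) - x)
        - ((f z : ℤ) - z) + 2 * ((f y : ℤ) - y) := by ring
      rw [e]
      exact dvd_add (dvd_sub (dvd_sub hd (hcong x hx)) (hcong z hz))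
        (Dvd.dvd.mul_left (hcong y hy) 2)
    obtain ⟨rfl, rfl⟩ := h.free x hx y hy z hz h1
    exact ⟨rfl, rfl⟩
  cover := by
    intro r
    rcases h.cover r with ⟨a, ha, hd⟩ | ⟨y, hy, z, hz, hlt, hd⟩
    · left
      refine ⟨f a, Finset.mem_image_of_mem f ha, ?_⟩
      have e : (f a : ℤ) - r = ((f a : ℤ) - a) + ((a : ℤ) - r) := by ring
      rw [e]
      exact dvd_add (hcong a ha) hd
    · right
      refine ⟨f y, Finset.mem_image_of_mem f hy, f z, Finset.mem_image_of_mem f hz,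
        hmono y hy z hz hlt, ?_⟩
      have e : 2 * (f z : ℤ) - f y - r = (2 * (z : ℤ) - y - r) + 2 * ((f z : ℤ) - z)
        - ((f y : ℤ) - y) := by ring
      rw [e]
      exact dvd_sub (dvd_add hd (Dvd.dvd.mul_left (hcong z hz) 2)) (hcong y hy)

/-- The sum set `⋃ a ∈ A, a + N * B a`. -/
def sigmaSet (N : ℕ) (A : Finset ℕ) (B : ℕ → Finset ℕ) : Finset ℕ :=
  (A.sigma B).image (fun p => p.1 + N * p.2)

theorem mem_sigmaSet {N : ℕ} {A : Finset ℕ} {B : ℕ → Finset ℕ} {x : ℕ} :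
    x ∈ sigmaSet N A B ↔ ∃ a ∈ A, ∃ b ∈ B a, x = a + N * b := by
  unfold sigmaSet
  rw [Finset.mem_image]
  constructor
  · rintro ⟨⟨a, b⟩, h, rfl⟩
    rw [Finset.mem_sigma] at h
    exact ⟨a, h.1, b, h.2, rfl⟩
  · rintro ⟨a, ha, b, hb, rfl⟩
    exact ⟨⟨a, b⟩, Finset.mem_sigma.2 ⟨ha, hb⟩, rfl⟩

/-- Twisted products of modular sets. -/
theorem ModSet.sigma {N k M l : ℕ} (hN : 0 < N) {A : Finset ℕ} (h : ModSet N k A)
    (B : ℕ → Finset ℕ) (hB : ∀ a ∈ A, ModSet M l (B a))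
    (hcov : ∀ r : ℤ, (∃ a ∈ A, (N : ℤ) ∣ (a : ℤ) - r) ∨
      ∃ y ∈ A, ∃ z ∈ A, y < z ∧ B y = B z ∧ (N : ℤ) ∣ 2 * (z : ℤ) - y - r) :
    ModSet (N * M) (k + l) (sigmaSet N A B) := by
  have hN' : (N : ℤ) ≠ 0 := by exact_mod_cast hN.ne'
  have hred : ∀ a₁ ∈ A, ∀ b₁ : ℕ, ∀ a₂ ∈ A, ∀ b₂ : ℕ, ∀ a₃ ∈ A, ∀ b₃ : ℕ,
      (((N * M : ℕ) : ℤ)) ∣ ((a₁ + N * b₁ : ℕ) : ℤ) + ((a₃ + N * b₃ : ℕ) : ℤ)
        - 2 * ((a₂ + N * b₂ : ℕ) : ℤ) →
      a₁ = a₂ ∧ a₃ = a₂ ∧ (M : ℤ) ∣ (b₁ : ℤ) + b₃ - 2 * b₂ := by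
    intro a₁ h₁ b₁ a₂ h₂ b₂ a₃ h₃ b₃ hd
    have hdN : (N : ℤ) ∣ (a₁ : ℤ) + a₃ - 2 * a₂ := by
      have h1 : (N : ℤ) ∣ ((a₁ + N * b₁ : ℕ) : ℤ) + ((a₃ + N * b₃ : ℕ) : ℤ)
        - 2 * ((a₂ + N * b₂ : ℕ) : ℤ) := by
        refine dvd_trans ?_ hd
        push_cast
        exact Dvd.intro _ rfl
      have e : (a₁ : ℤ) + a₃ - 2 * a₂ = (((a₁ + N * b₁ : ℕ) : ℤ) + ((a₃ + N * b₃ : ℕ) : ℤ)
        - 2 * ((a₂ + N * b₂ : ℕ) : ℤ)) - N * ((b₁ : ℤ) + b₃ - 2 * b₂) := by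
        push_cast; ring
      rw [e]
      exact dvd_sub h1 (Dvd.intro _ rfl)
    obtain ⟨rfl, rfl⟩ := h.free a₁ h₁ a₂ h₂ a₃ h₃ hdN
    refine ⟨rfl, rfl, ?_⟩
    have e : ((a₃ + N * b₁ : ℕ) : ℤ) + ((a₃ + N * b₃ : ℕ) : ℤ) - 2 * ((a₃ + N * b₂ : ℕ) : ℤ)
        = (N : ℤ) * ((b₁ : ℤ) + b₃ - 2 * b₂) := by
      push_cast; ring
    rw [e, Nat.cast_mul] at hd
    exact (mul_dvd_mul_iff_left hN').1 hd
  refine ⟨?_, ?_, ?_⟩
  · unfold sigmaSet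
    rw [Finset.card_image_of_injOn, Finset.card_sigma, Finset.sum_congr rfl
      (fun a ha => (hB a ha).card), Finset.sum_const, h.card, smul_eq_mul, ← pow_add]
    rintro ⟨a, b⟩ hab ⟨a', b'⟩ hab' heq
    simp only [Finset.coe_sigma, Set.mem_sigma_iff, Finset.mem_coe] at hab hab'
    have heq' : a + N * b = a' + N * b' := heq
    have h1 := hred a hab.1 b a' hab'.1 b' a hab.1 b (by
      rw [heq']
      have : ((a' + N * b' : ℕ) : ℤ) + ((a' + N * b' : ℕ) : ℤ)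
        - 2 * ((a' + N * b' : ℕ) : ℤ) = 0 := by ring
      rw [this]
      exact dvd_zero _)
    obtain ⟨rfl, -, -⟩ := h1
    have : b = b' := by
      have h2 : N * b = N * b' := by omega
      exact Nat.eq_of_mul_eq_mul_left hN h2
    subst this
    rfl
  · intro x hx y hy z hz hd
    obtain ⟨a₁, h₁, b₁, hb₁, rfl⟩ := mem_sigmaSet.1 hx
    obtain ⟨a₂, h₂, b₂, hb₂, rfl⟩ := mem_sigmaSet.1 hy
    obtain ⟨a₃, h₃, b₃, hb₃, rfl⟩ := mem_sigmaSet.1 hz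
    obtain ⟨rfl, rfl, hM⟩ := hred a₁ h₁ b₁ a₂ h₂ b₂ a₃ h₃ b₃ hd
    obtain ⟨rfl, rfl⟩ := (hB _ h₃).free b₁ hb₁ b₂ hb₂ b₃ hb₃ hM
    exact ⟨rfl, rfl⟩
  · intro r
    rcases hcov r with ⟨a, ha, e, he⟩ | ⟨y, hy, z, hz, hlt, hBe, e, he⟩
    · -- `a - r = N * e`
      rcases (hB a ha).cover (-e) with ⟨b, hb, f, hf⟩ | ⟨u, hu, v, hv, huv, f, hf⟩
      · left
        refine ⟨a + N * b, mem_sigmaSet.2 ⟨a, ha, b, hb, rfl⟩, f, ?_⟩
        push_cast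
        linear_combination he + (N : ℤ) * hf
      · right
        refine ⟨a + N * u, mem_sigmaSet.2 ⟨a, ha, u, hu, rfl⟩, a + N * v,
          mem_sigmaSet.2 ⟨a, ha, v, hv, rfl⟩, ?_, f, ?_⟩
        · have := Nat.mul_lt_mul_of_pos_left huv hN
          omega
        · push_cast
          linear_combination he + (N : ℤ) * hf
    · -- `2 z - y - r = N * e`
      rcases (hB y hy).cover (-e) with ⟨b, hb, f, hf⟩ | ⟨u, hu, v, hv, huv, f, hf⟩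
      · right
        refine ⟨y + N * b, mem_sigmaSet.2 ⟨y, hy, b, hb, rfl⟩, z + N * b,
          mem_sigmaSet.2 ⟨z, hz, b, hBe ▸ hb, rfl⟩, by omega, f, ?_⟩
        push_cast
        linear_combination he + (N : ℤ) * hf
      · right
        refine ⟨y + N * u, mem_sigmaSet.2 ⟨y, hy, u, hu, rfl⟩, z + N * v,
          mem_sigmaSet.2 ⟨z, hz, v, hBe ▸ hv, rfl⟩, ?_, f, ?_⟩
        · have := Nat.mul_lt_mul_of_pos_left huv hN
          omega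
        · push_cast
          linear_combination he + (N : ℤ) * hf

/-- Products of modular sets. -/
theorem ModSet.prod {N k M l : ℕ} (hN : 0 < N) {A B : Finset ℕ} (h : ModSet N k A)
    (hB : ModSet M l B) : ModSet (N * M) (k + l) (sigmaSet N A (fun _ => B)) := by
  refine h.sigma hN (fun _ => B) (fun _ _ => hB) ?_
  intro r
  rcases h.cover r with h1 | ⟨y, hy, z, hz, hlt, hd⟩
  · exact Or.inl h1
  · exact Or.inr ⟨y, hy, z, hz, hlt, rfl, hd⟩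

end Run7.h222.Stanley
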