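import Mathlib
import Pool.Agent.Run7.h222.Stanley.Mod

set_option autoImplicit false

/-!
# From modular sets to independent Stanley sequences
-/

namespace Run7.h222.Stanley

/-- Read the binary digits of `n` in base three. -/
def tau (n : ℕ) : ℕ := if h : n = 0 then 0 else 3 * tau (n / 2) + n % 2
  termination_by n
  decreasing_by omega

theorem tau_zero : tau 0 = 0 := by rw [tau]; simp

theorem tau_eq (n : ℕ) : tau n = 3 * tau (n / 2) + n % 2 := by
  rcases Nat.eq_zero_or_pos n with rfl | h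
  · have := tau_zero
    show tau 0 = 3 * tau 0 + 0
    omega
  · rw [tau]
    simp [h.ne']

theorem tau_lt {m n : ℕ} (h : m < n) : tau m < tau n := by
  induction n using Nat.strong_induction_on generalizing m with
  | _ n ih =>
    rw [tau_eq m, tau_eq n]
    rcases Nat.lt_or_ge (m / 2) (n / 2) with h1 | h1
    · have := ih (n / 2) (by omega) h1
      omega
    · have h2 : m / 2 = n / 2 := by omega
      rw [h2]
      omega

theorem tau_inj {m n : ℕ} (h : tau m = tau n) : m = n := by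
  rcases lt_trichotomy m n with h1 | h1 | h1
  · exact absurd h (tau_lt h1).ne
  · exact h1
  · exact absurd h (tau_lt h1).ne'

theorem tau_le {m n : ℕ} (h : m ≤ n) : tau m ≤ tau n := by
  rcases h.eq_or_lt with rfl | h
  · exact le_rfl
  · exact (tau_lt h).le

theorem tau_free (i j k : ℕ) (h : tau i + tau k = 2 * tau j) : i = j ∧ k = j := by
  induction j using Nat.strong_induction_on generalizing i k with
  | _ j ih =>
    rcases Nat.eq_zero_or_pos j with rfl | hj
    · rw [tau_zero] at h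
      have hi : tau i = tau 0 := by rw [tau_zero]; omega
      have hk : tau k = tau 0 := by rw [tau_zero]; omega
      exact ⟨tau_inj hi, tau_inj hk⟩
    · rw [tau_eq i, tau_eq j, tau_eq k] at h
      have := ih (j / 2) (by omega) (i / 2) (k / 2) (by omega)
      omega

theorem tau_pow (m j : ℕ) (h : j < 2 ^ m) : tau (2 ^ m + j) = 3 ^ m + tau j := by
  induction m generalizing j with
  | zero =>
    have : j = 0 := by simpa using h
    subst this
    rw [tau_eq]
    show 3 * tau 0 + 1 = 1 + tau 0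
    rw [tau_zero]
  | succ m ih =>
    rw [tau_eq (2 ^ (m + 1) + j), tau_eq j]
    have h1 : (2 ^ (m + 1) + j) / 2 = 2 ^ m + j / 2 := by rw [pow_succ]; omega
    have h2 : (2 ^ (m + 1) + j) % 2 = j % 2 := by rw [pow_succ]; omega
    rw [h1, h2, ih (j / 2) (by rw [pow_succ] at h; omega), pow_succ]
    ring

theorem tau_pred (m : ℕ) : 2 * tau (2 ^ m - 1) + 1 = 3 ^ m := by
  induction m with
  | zero => simp [tau_zero]
  | succ m ih =>
    rw [tau_eq]
    have hpos : 0 < 2 ^ m := by positivity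
    have h1 : (2 ^ (m + 1) - 1) / 2 = 2 ^ m - 1 := by rw [pow_succ]; omega
    have h2 : (2 ^ (m + 1) - 1) % 2 = 1 := by rw [pow_succ]; omega
    rw [h1, h2, pow_succ, ← ih]
    ring

/-- every number completes a progression with members (possibly equal) of the range of `tau` -/
theorem tau_cover (q : ℕ) : ∃ u v : ℕ, u ≤ v ∧ tau u + q = 2 * tau v ∧ (u = v → q = tau u) := by
  induction q using Nat.strong_induction_on with
  | _ q ih =>
    rcases Nat.eq_zero_or_pos q with rfl | hq
    · exact ⟨0, 0, le_rfl, by simp [tau_zero], fun _ => tau_zero.symm⟩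
    · obtain ⟨u, v, huv, h, hq'⟩ := ih (q / 3) (by omega)
      rcases (show q % 3 = 0 ∨ q % 3 = 1 ∨ q % 3 = 2 by omega) with h3 | h3 | h3
      · refine ⟨2 * u, 2 * v, by omega, ?_, ?_⟩
        · rw [tau_eq (2 * u), tau_eq (2 * v)]
          have e1 : 2 * u / 2 = u := by omega
          have e2 : 2 * v / 2 = v := by omega
          rw [e1, e2]; omega
        · intro he
          have := hq' (by omega)
          rw [tau_eq (2 * u)]
          have e1 : 2 * u / 2 = u := by omega
          rw [e1]; omega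
      · refine ⟨2 * u + 1, 2 * v + 1, by omega, ?_, ?_⟩
        · rw [tau_eq (2 * u + 1), tau_eq (2 * v + 1)]
          have e1 : (2 * u + 1) / 2 = u := by omega
          have e2 : (2 * v + 1) / 2 = v := by omega
          rw [e1, e2]; omega
        · intro he
          have := hq' (by omega)
          rw [tau_eq (2 * u + 1)]
          have e1 : (2 * u + 1) / 2 = u := by omega
          rw [e1]; omega
      · refine ⟨2 * u, 2 * v + 1, by omega, ?_, by intro he; omega⟩
        rw [tau_eq (2 * u), tau_eq (2 * v + 1)]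
        have e1 : 2 * u / 2 = u := by omega
        have e2 : (2 * v + 1) / 2 = v := by omega
        rw [e1, e2]; omega

/-- The conclusion of the conjecture for the character `r`. -/
def HasCharacter (r : ℤ) : Prop :=
  ∃ a : ℕ → ℕ, ∃ t : ℕ, StrictMono a ∧
    (∀ i j k : ℕ, i < j → j < k → a i + a k ≠ 2 * a j) ∧
    (∀ n : ℕ, t < n → ∀ m : ℕ, a (n - 1) < m → m < a n →
      ∃ i j : ℕ, i < j ∧ j < n ∧ a i + m = 2 * a j) ∧
    (∃ k : ℕ, ∀ k' : ℕ, k ≤ k' →
      (∀ i : ℕ, i < 2 ^ k' → a (2 ^ k' + i) = a (2 ^ k') + a i) ∧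
      ((a (2 ^ k') : ℤ) = 2 * (a (2 ^ k' - 1) : ℤ) - r + 1))

theorem hasCharacter_of_lt {N k : ℕ} {A : Finset ℕ} (h : ModSet N k A) (h0 : 0 ∈ A)
    (hlt : ∀ a ∈ A, a < N) {m : ℕ} (hm : m ∈ A) (hmax : ∀ a ∈ A, a ≤ m) {r : ℤ}
    (hr : 2 * (m : ℤ) + 1 = N + r) : HasCharacter r := by
  have hN : 0 < N := hlt 0 h0
  have hK : 0 < 2 ^ k := by positivity
  let c : Fin (2 ^ k) ↪o ℕ := A.orderEmbOfFin h.card
  have hcmem : ∀ i, c i ∈ A := fun i => A.orderEmbOfFin_mem h.card i
  have hcsurj : ∀ x ∈ A, ∃ i, c i = x := by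
    intro x hx
    have : x ∈ Set.range c := by
      rw [Finset.range_orderEmbOfFin]
      exact hx
    exact this
  let a : ℕ → ℕ := fun i => c ⟨i % 2 ^ k, Nat.mod_lt _ hK⟩ + N * tau (i / 2 ^ k)
  have ha : ∀ i, a i = c ⟨i % 2 ^ k, Nat.mod_lt _ hK⟩ + N * tau (i / 2 ^ k) := fun i => rfl
  have hmono : StrictMono a := by
    intro i j hij
    rw [ha, ha]
    have hdiv : i / 2 ^ k ≤ j / 2 ^ k := Nat.div_le_div_right hij.le
    rcases hdiv.eq_or_lt with heq | hlt'
    · rw [heq]
      have hmod : i % 2 ^ k < j % 2 ^ k := by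
        have h1 := Nat.div_add_mod i (2 ^ k)
        have h2 := Nat.div_add_mod j (2 ^ k)
        rw [heq] at h1
        omega
      have : c ⟨i % 2 ^ k, Nat.mod_lt _ hK⟩ < c ⟨j % 2 ^ k, Nat.mod_lt _ hK⟩ :=
        c.strictMono hmod
      omega
    · have h1 := hlt _ (hcmem ⟨i % 2 ^ k, Nat.mod_lt _ hK⟩)
      have h2 := tau_lt hlt'
      have h3 : N * tau (i / 2 ^ k) + N ≤ N * tau (j / 2 ^ k) := by
        have := Nat.mul_le_mul_left N (Nat.succ_le_of_lt h2)
        rw [Nat.mul_succ] at this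
        exact this
      omega
  -- every element `x + N * tau s` is a term
  have hterm : ∀ x ∈ A, ∀ s : ℕ, ∃ i, a i = x + N * tau s := by
    intro x hx s
    obtain ⟨j, hj⟩ := hcsurj x hx
    refine ⟨j + 2 ^ k * s, ?_⟩
    have h1 : (j + 2 ^ k * s) % 2 ^ k = j := by
      rw [Nat.add_mul_mod_self_left]
      exact Nat.mod_eq_of_lt j.2
    have h2 : (j + 2 ^ k * s) / 2 ^ k = s := by
      rw [Nat.add_mul_div_left _ _ hK, Nat.div_eq_of_lt j.2, zero_add]
    have h3 : (⟨((j : ℕ) + 2 ^ k * s) % 2 ^ k, Nat.mod_lt _ hK⟩ : Fin (2 ^ k)) = j :=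
      Fin.ext h1
    rw [ha, h3, h2, hj]
  have hc0 : c ⟨0, hK⟩ = 0 := by
    obtain ⟨j, hj⟩ := hcsurj 0 h0
    have : c ⟨0, hK⟩ ≤ c j := c.monotone (Fin.mk_le_of_le_val (Nat.zero_le _))
    omega
  have hclast : c ⟨2 ^ k - 1, by omega⟩ = m := by
    obtain ⟨j, hj⟩ := hcsurj m hm
    have h1 : c j ≤ c ⟨2 ^ k - 1, by omega⟩ := c.monotone (by
      rw [Fin.le_def]; show (j : ℕ) ≤ 2 ^ k - 1; have := j.2; omega)
    have h2 := hmax _ (hcmem ⟨2 ^ k - 1, by omega⟩)
    omega
  have hapow : ∀ k', k ≤ k' → a (2 ^ k') = N * 3 ^ (k' - k) := by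
    intro k' hk'
    obtain ⟨d, rfl⟩ := Nat.exists_eq_add_of_le hk'
    have h1 : 2 ^ (k + d) % 2 ^ k = 0 := by rw [pow_add]; simp
    have h2 : 2 ^ (k + d) / 2 ^ k = 2 ^ d := by
      rw [pow_add, Nat.mul_div_cancel_left _ hK]
    have h3 : (⟨2 ^ (k + d) % 2 ^ k, Nat.mod_lt _ hK⟩ : Fin (2 ^ k)) = ⟨0, hK⟩ := Fin.ext h1
    have h4 := tau_pow d 0 (by positivity)
    rw [ha, h3, h2, hc0, Nat.add_sub_cancel_left]
    rw [add_zero, tau_zero, add_zero] at h4
    rw [h4, zero_add]
  refine ⟨a, 2 ^ k, hmono, ?_, ?_, k, ?_⟩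
  · intro i j l hij hjl heq
    rw [ha i, ha j, ha l] at heq
    have hd : (N : ℤ) ∣ ((c ⟨i % 2 ^ k, Nat.mod_lt _ hK⟩ : ℕ) : ℤ)
        + (c ⟨l % 2 ^ k, Nat.mod_lt _ hK⟩ : ℕ)
        - 2 * (c ⟨j % 2 ^ k, Nat.mod_lt _ hK⟩ : ℕ) := by
      refine ⟨2 * (tau (j / 2 ^ k) : ℤ) - tau (i / 2 ^ k) - tau (l / 2 ^ k), ?_⟩
      have : (((c ⟨i % 2 ^ k, Nat.mod_lt _ hK⟩ + N * tau (i / 2 ^ k) +
        (c ⟨l % 2 ^ k, Nat.mod_lt _ hK⟩ + N * tau (l / 2 ^ k)) : ℕ)) : ℤ)
        = ((2 * (c ⟨j % 2 ^ k, Nat.mod_lt _ hK⟩ + N * tau (j / 2 ^ k)) : ℕ) : ℤ) := by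
        rw [heq]
      push_cast at this
      linear_combination this
    obtain ⟨e1, e2⟩ := h.free _ (hcmem _) _ (hcmem _) _ (hcmem _) hd
    rw [e1, e2] at heq
    have h3 : N * (tau (i / 2 ^ k) + tau (l / 2 ^ k)) = N * (2 * tau (j / 2 ^ k)) := by
      linarith
    have h4 := Nat.eq_of_mul_eq_mul_left hN h3
    obtain ⟨h5, -⟩ := tau_free _ _ _ h4
    have h6 : a i = a j := by rw [ha, ha, e1, h5]
    exact absurd h6 (hmono hij).ne
  · intro n hn x hx1 hx2
    have hge : N ≤ a (n - 1) := by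
      have h1 : a (2 ^ k) ≤ a (n - 1) := hmono.monotone (by omega)
      have h2 := hapow k le_rfl
      simp at h2
      omega
    -- `x` is not a term
    have hnot : ∀ i, a i ≠ x := by
      intro i hi
      have h1 : n - 1 < i := hmono.lt_iff_lt.1 (by rw [hi]; exact hx1)
      have h2 : i < n := hmono.lt_iff_lt.1 (by rw [hi]; exact hx2)
      omega
    -- it suffices to find two elements
    have key : ∀ y ∈ A, ∀ z ∈ A, ∀ u v : ℕ, y + N * tau u < z + N * tau v →
        (y + N * tau u) + x = 2 * (z + N * tau v) →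
        ∃ i j : ℕ, i < j ∧ j < n ∧ a i + x = 2 * a j := by
      intro y hy z hz u v hlt' heq
      obtain ⟨i, hi⟩ := hterm y hy u
      obtain ⟨j, hj⟩ := hterm z hz v
      refine ⟨i, j, hmono.lt_iff_lt.1 (by rw [hi, hj]; exact hlt'),
        hmono.lt_iff_lt.1 (by rw [hj]; omega), by rw [hi, hj]; exact heq⟩
    have hdm := Nat.div_add_mod x N
    have hmodlt := Nat.mod_lt x hN
    have hq1 : 1 ≤ x / N := (Nat.one_le_div_iff hN).2 (by omega)
    rcases h.cover ((x % N : ℕ) : ℤ) with ⟨b, hb, e, he⟩ | ⟨y, hy, z, hz, hyz, e, he⟩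
    · have hbN := hlt b hb
      have he0 : e = 0 := by
        have h1 : (N : ℤ) * e < N * 1 := by rw [← he]; push_cast; omega
        have h2 : (N : ℤ) * (-1) < N * e := by rw [← he]; push_cast; omega
        have hNz : (0 : ℤ) < N := by exact_mod_cast hN
        have h3 := lt_of_mul_lt_mul_left h1 hNz.le
        have h4 := lt_of_mul_lt_mul_left h2 hNz.le
        omega
      rw [he0, mul_zero] at he
      have hbx : b = x % N := by omega
      obtain ⟨u, v, huv, h1, h2⟩ := tau_cover (x / N)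
      have hne : u ≠ v := by
        intro h3
        obtain ⟨i, hi⟩ := hterm b hb u
        apply hnot i
        rw [hi, ← h2 h3, hbx]
        omega
      have hlt' := tau_lt (lt_of_le_of_ne huv hne)
      apply key b hb b hb u v
      · have := Nat.mul_lt_mul_of_pos_left hlt' hN
        omega
      · have h3 : N * tau u + N * (x / N) = 2 * (N * tau v) := by
          rw [← Nat.mul_add, h1]; ring
        omega
    · have hyN := hlt y hy
      have hzN := hlt z hz
      -- 2 z - y - x % N = N e with e in {-1, 0, 1}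
      have hNz : (0 : ℤ) < N := by exact_mod_cast hN
      have he1 : e < 2 := by
        have h1 : (N : ℤ) * e < N * 2 := by rw [← he]; push_cast; omega
        exact lt_of_mul_lt_mul_left h1 hNz.le
      have hqe : 0 ≤ ((x / N : ℕ) : ℤ) - e := by omega
      obtain ⟨q, hq⟩ := Int.eq_ofNat_of_zero_le hqe
      obtain ⟨u, v, huv, h1, -⟩ := tau_cover q
      apply key y hy z hz u v
      · have := Nat.mul_le_mul_left N (tau_le huv)
        omega
      · have h2 : ((y + N * tau u + x : ℕ) : ℤ) = ((2 * (z + N * tau v) : ℕ) : ℤ) := by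
          have hx : (x : ℤ) = N * ((x / N : ℕ) : ℤ) + ((x % N : ℕ) : ℤ) := by
            exact_mod_cast hdm.symm
          have h1' : (tau u : ℤ) + q = 2 * tau v := by exact_mod_cast h1
          have hq' : ((x / N : ℕ) : ℤ) - e = q := hq
          rw [Nat.cast_add, hx]
          push_cast
          push_cast at he hq'
          linear_combination (-1 : ℤ) * he + (N : ℤ) * h1' + (N : ℤ) * hq'
        exact_mod_cast h2
  · intro k' hk'
    have hpow := hapow k' hk'
    obtain ⟨d, rfl⟩ := Nat.exists_eq_add_of_le hk'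
    rw [Nat.add_sub_cancel_left] at hpow
    constructor
    · intro i hi
      rw [hpow, ha (2 ^ (k + d) + i), ha i]
      have h1 : (2 ^ (k + d) + i) % 2 ^ k = i % 2 ^ k := by
        rw [pow_add, Nat.mul_add_mod]
      have h2 : (2 ^ (k + d) + i) / 2 ^ k = 2 ^ d + i / 2 ^ k := by
        rw [pow_add, Nat.mul_add_div hK]
      have h3 : (⟨(2 ^ (k + d) + i) % 2 ^ k, Nat.mod_lt _ hK⟩ : Fin (2 ^ k))
          = ⟨i % 2 ^ k, Nat.mod_lt _ hK⟩ := Fin.ext h1
      have h4 : i / 2 ^ k < 2 ^ d := by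
        rw [Nat.div_lt_iff_lt_mul hK, mul_comm, ← pow_add]
        exact hi
      rw [h3, h2, tau_pow d _ h4]
      ring
    · rw [hpow, ha]
      have hpos : 0 < 2 ^ d := by positivity
      have e0 : 2 ^ (k + d) - 1 = (2 ^ k - 1) + 2 ^ k * (2 ^ d - 1) := by
        rw [pow_add, Nat.mul_sub, mul_one]
        have : 2 ^ k * 1 ≤ 2 ^ k * 2 ^ d := Nat.mul_le_mul_left _ hpos
        omega
      have h1 : (2 ^ (k + d) - 1) % 2 ^ k = 2 ^ k - 1 := by
        rw [e0, Nat.add_mul_mod_self_left]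
        exact Nat.mod_eq_of_lt (by omega)
      have h2 : (2 ^ (k + d) - 1) / 2 ^ k = 2 ^ d - 1 := by
        rw [e0, Nat.add_mul_div_left _ _ hK, Nat.div_eq_of_lt (by omega), zero_add]
      have h3 : (⟨(2 ^ (k + d) - 1) % 2 ^ k, Nat.mod_lt _ hK⟩ : Fin (2 ^ k))
          = ⟨2 ^ k - 1, by omega⟩ := Fin.ext h1
      rw [h3, h2, hclast]
      have h4 : 2 * (tau (2 ^ d - 1) : ℤ) + 1 = 3 ^ d := by exact_mod_cast tau_pred d
      push_cast
      rw [← h4]
      linear_combination (-1 : ℤ) * hr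

/-- The pair `{0, 1}` modulo three. -/
theorem modSet_three : ModSet 3 1 {0, 1} where
  card := by decide
  free := by
    intro x hx y hy z hz hd
    simp only [Finset.mem_insert, Finset.mem_singleton] at hx hy hz
    omega
  cover := by
    intro r
    rcases (show r % 3 = 0 ∨ r % 3 = 1 ∨ r % 3 = 2 by omega) with h | h | h
    · exact Or.inl ⟨0, by simp, by omega⟩
    · exact Or.inl ⟨1, by simp, by omega⟩
    · exact Or.inr ⟨0, by simp, 1, by simp, by omega, by omega⟩

theorem hasCharacter {N k : ℕ} (hN : 0 < N) {A : Finset ℕ} (h : ModSet N k A) (h0 : 0 ∈ A)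
    {m : ℕ} (hm : m ∈ A) (hmax : ∀ a ∈ A, a ≤ m) {r : ℤ}
    (hr : 2 * (m : ℤ) + 1 = N + r) : HasCharacter r := by
  -- enlarge the modulus by the product with `{0, 1}` until all elements are small
  obtain ⟨d, hd⟩ : ∃ d : ℕ, m + 1 ≤ N + d := ⟨m + 1, by omega⟩
  induction d using Nat.strong_induction_on generalizing N k A m with
  | _ d ih =>
    rcases Nat.lt_or_ge m N with hlt | hge
    · exact hasCharacter_of_lt h h0 (fun a ha => lt_of_le_of_lt (hmax a ha) hlt) hm hmax hr
    · have hp := h.prod hN modSet_three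
      have h0' : 0 ∈ sigmaSet N A (fun _ => {0, 1}) :=
        mem_sigmaSet.2 ⟨0, h0, 0, by simp, by simp⟩
      have hm' : m + N ∈ sigmaSet N A (fun _ => {0, 1}) :=
        mem_sigmaSet.2 ⟨m, hm, 1, by simp, by simp⟩
      have hmax' : ∀ x ∈ sigmaSet N A (fun _ => {0, 1}), x ≤ m + N := by
        intro x hx
        obtain ⟨a, ha, b, hb, rfl⟩ := mem_sigmaSet.1 hx
        have h1 := hmax a ha
        simp only [Finset.mem_insert, Finset.mem_singleton] at hb
        rcases hb with rfl | rfl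
        · omega
        · omega
      exact ih (d - 1) (by omega) (by omega) hp h0' hm' hmax'
        (by push_cast; linear_combination hr) (by omega)

end Run7.h222.Stanley
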